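import Pool.Agent.Helper52.SH.Im
import Pool.Agent.Helper52.SH.Ca
import Pool.Agent.Helper35.SH.Eb

/-!
PROJECT ALLQ, block E2/E3, lemma A: the ratios of values of a theta function at rational points
separate tangent vectors.
-/

set_option autoImplicit false

namespace Pool.Agent.Helper73.SH

open Finset Complex Pool.Agent.Helper49.SH
open scoped Topology

variable {ι : Type} [Fintype ι]

/-- an entire function on the line that vanishes at all real points is zero -/
theorem real_zero {g : ℂ → ℂ} (hg : Differentiable ℂ g) (h : ∀ s : ℝ, g s = 0) (z : ℂ) :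
    g z = 0 := by
  have hA : AnalyticOnNhd ℂ g Set.univ := fun w _ =>
    hg.differentiableOn.analyticAt (IsOpen.mem_nhds isOpen_univ (Set.mem_univ w))
  have hfr : ∃ᶠ w in 𝓝[≠] (0 : ℂ), g w = 0 := by
    have h1 : Filter.Tendsto (fun n : ℕ => (((1 : ℝ) / ((n : ℝ) + 1) : ℝ) : ℂ)) Filter.atTop
        (𝓝[≠] (0 : ℂ)) := by
      rw [tendsto_nhdsWithin_iff]
      constructor
      · have h2 := (Complex.continuous_ofReal.tendsto 0).comp
          (tendsto_one_div_add_atTop_nhds_zero_nat (𝕜 := ℝ))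
        rw [ofReal_zero] at h2
        exact h2
      · refine Filter.Eventually.of_forall fun n => ?_
        rw [Set.mem_compl_iff, Set.mem_singleton_iff, ofReal_eq_zero]
        positivity
    exact h1.frequently (Filter.Frequently.of_forall fun n => h _)
  exact hA.eqOn_zero_of_preconnected_of_frequently_eq_zero isPreconnected_univ
    (Set.mem_univ _) hfr (Set.mem_univ z)

theorem line_diff {G : (ι → ℂ) → ℂ} (hG : Differentiable ℂ G) (a b : ι → ℂ) :
    Differentiable ℂ fun s : ℂ => G (a + s • b) :=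
  hG.comp ((differentiable_id.smul_const b).const_add a)

/-- an entire function that vanishes at all rational points is zero -/
theorem rat_zero {G : (ι → ℂ) → ℂ} (hG : Differentiable ℂ G) (h : ∀ t : ι → ℚ, G (rv t) = 0)
    (w : ι → ℂ) : G w = 0 := by
  -- real points
  have hr : ∀ x : ι → ℝ, G (fun i => (x i : ℂ)) = 0 := by
    have hc : Continuous fun x : ι → ℝ => G (fun i => (x i : ℂ)) := by
      refine hG.continuous.comp ?_
      exact continuous_pi fun i => Complex.continuous_ofReal.comp (continuous_apply i)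
    have hdr : DenseRange (fun t : ι → ℚ => fun i => ((t i : ℚ) : ℝ)) :=
      DenseRange.piMap fun _ => Rat.denseRange_cast
    have h1 : (fun x : ι → ℝ => G (fun i => (x i : ℂ))) = fun _ => 0 := by
      refine hdr.equalizer hc continuous_const ?_
      funext t
      have h2 := h t
      have h3 : (fun i => (((t i : ℚ) : ℝ) : ℂ)) = rv t := by
        funext i
        simp [rv]
      change G (fun i => (((t i : ℚ) : ℝ) : ℂ)) = 0
      rw [h3, h2]
    intro x
    exact congrFun h1 x
  have h4 : ∀ s : ℝ, (fun s : ℂ => G ((fun i => ((w i).re : ℂ)) + s • fun i => ((w i).im : ℂ))) s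
      = 0 := by
    intro s
    have h5 := hr (fun i => (w i).re + s * (w i).im)
    rw [← h5]
    change G ((fun i => ((w i).re : ℂ)) + (s : ℂ) • fun i => ((w i).im : ℂ)) = _
    congr 1
    funext i
    simp
  have h6 := real_zero (line_diff hG _ _) h4 I
  have h7 : (fun i => ((w i).re : ℂ)) + I • (fun i => ((w i).im : ℂ)) = w := by
    funext i
    simp only [Pi.add_apply, Pi.smul_apply, smul_eq_mul]
    rw [mul_comm]
    exact Complex.re_add_im (w i)
  rw [h7] at h6
  exact h6

/-- entire functions on `ι → ℂ` form a domain -/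
theorem mul_zero' {F G : (ι → ℂ) → ℂ} (hF : Differentiable ℂ F) (hG : Differentiable ℂ G)
    (h0 : F ≠ 0) (h : ∀ w, F w * G w = 0) (w : ι → ℂ) : G w = 0 := by
  obtain ⟨v, hv⟩ : ∃ v, F v ≠ 0 := by
    by_contra h1
    push Not at h1
    exact h0 (funext h1)
  have hA : ∀ {g : ℂ → ℂ}, Differentiable ℂ g → AnalyticOnNhd ℂ g Set.univ := fun hg w _ =>
    hg.differentiableOn.analyticAt (IsOpen.mem_nhds isOpen_univ (Set.mem_univ w))
  rcases (hA (line_diff hF v (w - v))).eq_zero_or_eq_zero_of_mul_eq_zero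
    (hA (line_diff hG v (w - v))) (fun s _ => h _) isPreconnected_univ with h1 | h1
  · exfalso
    have h2 := h1 0 (Set.mem_univ _)
    rw [zero_smul, add_zero] at h2
    exact hv h2
  · have h2 := h1 1 (Set.mem_univ _)
    rwa [one_smul, add_sub_cancel] at h2

/-- **density**: an entire function that vanishes at the rational points outside the zeros of
`F ≠ 0` is zero -/
theorem rat_zero_of {F G : (ι → ℂ) → ℂ} (hF : Differentiable ℂ F) (hG : Differentiable ℂ G)
    (h0 : F ≠ 0) (h : ∀ t : ι → ℚ, F (rv t) ≠ 0 → G (rv t) = 0) (w : ι → ℂ) : G w = 0 := by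
  refine mul_zero' hF hG h0 (fun w => ?_) w
  refine rat_zero (G := fun w => F w * G w) (hF.mul hG) (fun t => ?_) w
  by_cases h1 : F (rv t) = 0
  · rw [h1, zero_mul]
  · rw [h t h1, mul_zero]

/-- rational points with `F ≠ 0` exist -/
theorem exists_rat {F : (ι → ℂ) → ℂ} (hF : Differentiable ℂ F) (h0 : F ≠ 0) :
    ∃ a : ι → ℚ, F (rv a) ≠ 0 := by
  by_contra h
  push Not at h
  exact h0 (funext (rat_zero hF h))

/-- `nab` as a function of the direction -/
noncomputable def nabL (E : ι → ι → ℚ) (F : (ι → ℂ) → ℂ) (w : ι → ℂ) : (ι → ℂ) →ₗ[ℂ] ℂ where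
  toFun e := nab E e F w
  map_add' a b := by
    simp only [nab, map_add, Pool.Agent.Helper52.SH.Eb_add_left]
    ring
  map_smul' c a := by
    simp only [nab, map_smul, Pool.Agent.Helper52.SH.Eb_smul_left, smul_eq_mul, RingHom.id_apply]
    ring

theorem nabL_apply (E : ι → ι → ℚ) (F : (ι → ℂ) → ℂ) (w e : ι → ℂ) :
    nabL E F w e = nab E e F w := rfl

theorem diff_fderiv {F : (ι → ℂ) → ℂ} (hF : Differentiable ℂ F) (e : ι → ℂ) :
    Differentiable ℂ fun w => fderiv ℂ F w e := by
  classical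
  have h1 : AnalyticOnNhd ℂ F Set.univ :=
    Pool.Agent.Helper96.SH.analyticOnNhd_of_differentiableOn isOpen_univ hF.differentiableOn
  have h2 : Differentiable ℂ (fderiv ℂ F) := fun w =>
    (h1.fderiv w (Set.mem_univ w)).differentiableAt
  exact fun w => (h2 w).clm_apply (differentiableAt_const e)

theorem diff_nab {E : ι → ι → ℚ} {F : (ι → ℂ) → ℂ} (hF : Differentiable ℂ F) (e : ι → ℂ) :
    Differentiable ℂ fun w => nab E e F w := by
  have h1 : Differentiable ℂ fun w : ι → ℂ => Eb E e w :=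
    (Pool.Agent.Helper52.SH.EbL E e).differentiable
  exact (diff_fderiv hF e).sub ((h1.const_mul _).mul hF)

/-- finitely many functionals with trivial common kernel -/
theorem exists_fin {V : Type} [AddCommGroup V] [Module ℂ V] [FiniteDimensional ℂ V] {m : ℕ}
    (hm : Module.finrank ℂ V = m)
    (S : Set (Module.Dual ℂ V)) (h : ∀ v : V, (∀ f ∈ S, f v = 0) → v = 0) :
    ∃ f : Fin m → Module.Dual ℂ V, (∀ i, f i ∈ S) ∧
      ∀ v : V, (∀ i, f i v = 0) → v = 0 := by
  have h1 : (Submodule.span ℂ S).dualCoannihilator = ⊥ := by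
    rw [eq_bot_iff]
    intro v hv
    rw [Submodule.mem_dualCoannihilator] at hv
    exact (Submodule.mem_bot ℂ).2 (h v fun f hf => hv f (Submodule.subset_span hf))
  have h2 : Submodule.span ℂ S = ⊤ := by
    have h3 := Subspace.dualCoannihilator_dualAnnihilator_eq (W := Submodule.span ℂ S)
    rw [h1, Submodule.dualAnnihilator_bot] at h3
    exact h3.symm
  obtain ⟨f, hf1, hf2, -⟩ := Submodule.exists_fun_fin_finrank_span_eq ℂ S
  have h4 : Module.finrank ℂ (Submodule.span ℂ S) = m := by
    rw [h2, finrank_top, Subspace.dual_finrank_eq, hm]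
  replace hf2 := hf2.trans h2
  refine ⟨fun i => f (Fin.cast h4.symm i), fun i => hf1 _, fun v hv => ?_⟩
  refine (Module.forall_dual_apply_eq_zero_iff ℂ v).1 fun g => ?_
  have h5 : g ∈ Submodule.span ℂ (Set.range f) := by
    rw [hf2]
    trivial
  induction h5 using Submodule.span_induction with
  | mem x hx =>
    obtain ⟨i, rfl⟩ := hx
    have h6 := hv (Fin.cast h4 i)
    simpa using h6
  | zero => rfl
  | add x y _ _ hx hy => rw [LinearMap.add_apply, hx, hy, add_zero]
  | smul c x _ hx => rw [LinearMap.smul_apply, hx, smul_zero]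

/-- **Lemma A** -/
theorem lemA {E : ι → ι → ℚ} {N : Submodule ℂ (ι → ℂ)} (hP : Pol E N) {F : (ι → ℂ) → ℂ}
    (hF : AT E N F) (h0 : F ≠ 0) :
    ∃ (a : ι → ℚ) (t : Fin (Module.finrank ℂ N) → (ι → ℚ)), F (rv a) ≠ 0 ∧
      (∀ i, F (rv (t i)) ≠ 0) ∧ ∀ e ∈ Nc N,
        (∀ i, F (rv a) * nab E e F (rv (t i)) = F (rv (t i)) * nab E e F (rv a)) → e = 0 := by
  obtain ⟨a, ha⟩ := exists_rat hF.diff h0
  let lam : (ι → ℚ) → Module.Dual ℂ (Nc N) := fun t =>
    (F (rv a) • nabL E F (rv t) - F (rv t) • nabL E F (rv a)) ∘ₗ (Nc N).subtype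
  have hlam : ∀ t (v : Nc N), lam t v = F (rv a) * nab E v F (rv t) - F (rv t) * nab E v F (rv a) :=
    fun t v => rfl
  let S : Set (Module.Dual ℂ (Nc N)) := {f | ∃ t : ι → ℚ, F (rv t) ≠ 0 ∧ lam t = f}
  have hS : ∀ v : Nc N, (∀ f ∈ S, f v = 0) → v = 0 := by
    intro v hv
    by_contra hv0
    have hv1 : (v : ι → ℂ) ≠ 0 := fun h => hv0 (Subtype.ext h)
    obtain ⟨w, hw⟩ := Pool.Agent.Helper52.SH.imm hP hF h0 v.2 hv1
      (nab E v F (rv a) / F (rv a))
    apply hw
    have h1 := rat_zero_of (G := fun w => F (rv a) * nab E v F w - F w * nab E v F (rv a))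
      hF.diff (((diff_nab hF.diff _).const_mul _).sub (hF.diff.mul_const _)) h0
      (fun t ht => by
        have h2 := hv (lam t) ⟨t, ht, rfl⟩
        rw [hlam] at h2
        exact h2) w
    have h3 : nab E v F w * F (rv a) = nab E v F (rv a) * F w := by linear_combination h1
    rw [div_mul_eq_mul_div, eq_div_iff ha, h3]
  obtain ⟨f, hf1, hf2⟩ := exists_fin (Pool.Agent.Helper35.SH.finrank_Nc N) S hS
  choose t ht1 ht2 using hf1
  refine ⟨a, t, ha, ht1, fun e he h => ?_⟩
  have h1 := hf2 ⟨e, he⟩ fun i => by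
    rw [← ht2 i, hlam, h i, sub_self]
  exact congrArg Subtype.val h1

end Pool.Agent.Helper73.SH
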